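import Pool.Agent.Y377.IL.AllC

/-!
# Entire curves given by iterated linear differential equations in varieties of general type

Let `B` be a ring of meromorphic functions on the plane which is closed under differentiation, for
example the constants, the polynomials, the elliptic functions with given periods, or the entire
functions of order at most `lam`. We consider the smallest set of meromorphic functions on the plane
which contains the quotients of the functions in `B` and is closed under sums, products and
meromorphic solutions of linear systems `y' = A y` with coefficients in the set. So the coefficients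
of the equations can be any functions which have been obtained before, the coefficients of the
equations for these again, and so on: an iterated Picard-Vessiot tower. Let `f` be a Zariski-dense
entire curve in a projective variety `X` with homogeneous coordinates in this set. Then `X`, and
every image of `X`, is covered by rational curves and has no pluricanonical forms, unless `f`, or
its image, is algebraic over `B`.
-/

set_option autoImplicit false

namespace Pool.Agent.Results.MP_2a5ae2_ag.IteratedLinearEquations

open Filter MvPolynomial
open scoped LinearAlgebra.Projectivization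
open Pool.Agent.TH143.EL (TrOne HolMap InV)
open Pool.Agent.TH143.GT (Covered FunField Pluricanonical Slow)
open Pool.Agent.W602.GT (IsForm GeneralType)
open Pool.Agent.Y377.IL

variable {N : ℕ}

/-- all forms that vanish on the curve `f` belong to the ideal `p` -/
def ZariskiDense (p : Ideal (MvPolynomial (Fin (N + 1)) ℂ)) (f : ℂ → ℙ ℂ (Fin (N + 1) → ℂ)) :
    Prop :=
  ∀ G : MvPolynomial (Fin (N + 1)) ℂ, IsForm G → (∀ z, eval (f z).rep G = 0) → G ∈ p

/-- The varieties with the function field `E` are covered by rational curves, and all their
pluricanonical forms vanish. -/
def Uniruled (E : Type) [Field E] [Algebra ℂ E] : Prop :=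
  Covered E ∧ ∀ v : ℕ, 0 < v → Algebra.trdeg ℂ E = v → ∀ n : ℕ, 0 < n →
    ∀ ω : (Fin v → Derivation ℂ E E) → E, Pluricanonical v n ω → ω = 0

/-- Let `X` be the projective variety with the ideal `p`, the function field `K`, the generic point
`y` and the dimension `w`, and let `f` be a Zariski-dense entire curve in `X`. The images of `X`
correspond to the fields `E` between `ℂ` and `K`.

(1) Let `f` be given by iterated linear differential equations over a ring `B` of meromorphic
functions which is closed under differentiation. Every image of `X` is covered by rational curves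
and has no pluricanonical forms, or all rational functions on the image are algebraic over `B` along
`f`. If `X` has a nonzero pluricanonical form, then `f` is algebraic over `B`. This applies if `X`
is of general type, and, for instance, to the ring of the entire functions of order at most `lam`.

(2) If moreover `B` is of transcendence degree at most one over `ℂ`, for instance the polynomials or
the elliptic functions with given periods, then all images of `X` of dimension at least two are
covered by rational curves, have no pluricanonical forms, and are not of general type.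

(3) If `f` is given by iterated linear differential equations over the constants, then all images of
`X` of positive dimension are covered by rational curves, have no pluricanonical forms, and are not
of general type. -/
theorem result (p : Ideal (MvPolynomial (Fin (N + 1)) ℂ)) (K : Type) [Field K] [Algebra ℂ K]
    (w : ℕ) (y : Fin (N + 1) → K) (hy : FunField p 1 K w y) (f : ℂ → ℙ ℂ (Fin (N + 1) → ℂ))
    (hf : HolMap f) (hX : ∀ z, InV p (f z)) (hd : ZariskiDense p f) :
    ((∀ B : Subalgebra ℂ (ℂ → ℂ), DB B → IteratedOver B f →
        (∀ E : IntermediateField ℂ K, AlgebraicAlong B y f E ∨ Uniruled E) ∧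
        ((∃ n : ℕ, 0 < n ∧ ∃ ω : (Fin w → Derivation ℂ K K) → K,
          Pluricanonical w n ω ∧ ω ≠ 0) → AlgebraicOver B f)) ∧
      (GeneralType ℂ K w → ∃ n : ℕ, 0 < n ∧ ∃ ω : (Fin w → Derivation ℂ K K) → K,
        Pluricanonical w n ω ∧ ω ≠ 0) ∧
      ∀ (lam : ℝ) (hlam : 0 ≤ lam), DB (Slow lam hlam)) ∧
    (∀ B : Subalgebra ℂ (ℂ → ℂ), TrOne B → IteratedOver B f →
      ∀ (E : IntermediateField ℂ K) (v : ℕ), Algebra.trdeg ℂ E = v → 1 < v →
        Uniruled E ∧ ¬ GeneralType ℂ E v) ∧
    (IteratedOver ⊥ f → ∀ (E : IntermediateField ℂ K) (v : ℕ), Algebra.trdeg ℂ E = v → 0 < v →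
      Uniruled E ∧ ¬ GeneralType ℂ E v) := by
  have huni : ∀ (E : IntermediateField ℂ K) (v : ℕ), Algebra.trdeg ℂ E = v →
      (Covered E ∧ ∀ n : ℕ, 0 < n → ∀ ω : (Fin v → Derivation ℂ E E) → E,
        Pluricanonical v n ω → ω = 0) → Uniruled E ∧ ¬ GeneralType ℂ E v := by
    rintro E v hv ⟨h1, h2⟩
    refine ⟨⟨h1, fun v' _ hv' => ?_⟩, not_gt h2⟩
    have h3 : v' = v := by
      rw [hv] at hv'
      exact_mod_cast hv'.symm
    subst h3
    exact h2
  refine ⟨⟨fun B hB hl => ⟨fun E => images_gen hy hf hX hd hB hl E, fun hω => ?_⟩, form_of_gt,
    db_slow⟩, fun B hB hl E v hv h1 => huni E v hv ?_, fun hl E v hv h1 => huni E v hv ?_⟩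
  · obtain ⟨n, hn, ω, hω, h0⟩ := hω
    rcases gen_K hy hf hX hd hB hl with h1 | ⟨-, h1⟩
    · exact h1
    · exact absurd (h1 n hn ω hω) h0
  · obtain ⟨h, hl, hr⟩ := hl
    exact fields_trOne hy hf hX hd hB hl hr E hv h1
  · obtain ⟨h, hl, hr⟩ := hl
    exact fields_bot hy hf hX hd hl hr E hv h1

end Pool.Agent.Results.MP_2a5ae2_ag.IteratedLinearEquations
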