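import Pool.Agent.Y192.KC.All2
import Pool.Agent.Y192.KC.Proj

/-!
MP_2a5ae2_ag, Q1: general type and pseudo-Brody hyperbolicity are equivalent for the covers
`w j ^ e j = F j (t 0 ^ m, …, t n ^ m)` of arbitrary projective varieties, `m` large; logarithmic
version.
-/

set_option autoImplicit false

namespace Pool.Agent.Results.MP_2a5ae2_ag.KummerEquivalence

open Pool.Agent.W602.GT Pool.Agent.Y192.KC

/-- Let `Z` be any irreducible projective variety in `P^n`, not in a coordinate hyperplane, with the
homogeneous prime ideal `I`, let `F 1, …, F r` and `G` be forms which do not vanish on `Z`, and let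
`e 1, …, e r` be positive numbers. There is a number `m0` with the following property. Let `m ≥ m0`
be divisible by the `e j`, and let `X` be any irreducible component, of dimension `d > 0`, of the
projective variety with the equations `f (t 0 ^ m, …, t n ^ m) = 0`, `f ∈ I`, and
`w j ^ e j = F j (t 0 ^ m, …, t n ^ m)` in the weighted projective space with the homogeneous
coordinates `t i` and `w j`; `L` is the function field of `X`, and `t`, `w` are the coordinates of its
generic point. Let `X°` be the part of `X` where `G (t 0 ^ m, …, t n ^ m)` does not vanish. Then the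
following are equivalent:
(1) `X°` is of log general type,
(2) `X°` is pseudo Picard hyperbolic (holomorphic maps from the punctured disc to `X°`, which are
not contained in a certain proper closed subset, extend),
(3) `X°` is pseudo Brody hyperbolic,
(4) the images of the nonconstant morphisms from the multiplicative group to `X°` are not Zariski
dense,
(5) there is no one-parameter group of diagonal matrices which acts nontrivially on `P^n` and
preserves `Z` and the essential parts of the branch divisors `F j = 0` and of `G = 0` on `Z`.
If `G = 1`, so that `X° = X` is projective, then the following are equivalent: `X` is of general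
type; `X` is pseudo Brody hyperbolic; the rational curves in `X` are not Zariski dense; (5). -/
theorem result {n r : ℕ} (X : ZCov n r) :
    ∃ m0 : ℕ, ∀ m, m0 ≤ m → (∀ j, X.e j ∣ m) →
      ∀ (L : Type) [Field L] [Algebra ℂ L] (t : Fin (n + 1) → L) (w : Fin r → L),
      ZField X m L t w → ∀ d : ℕ, 1 ≤ d → Algebra.trdeg ℂ L = d →
      [LogGeneralType ℂ L d (OffG X.toCov m t), PseudoPicard X.toCov m t w,
        PseudoBrody X.toCov m t w, PseudoGm X.toCov m t w, ¬ ZRed X].TFAE ∧
      (X.G = 1 → [GeneralType ℂ L d, PseudoBrody X.toCov m t w, PseudoRational X.toCov m t w,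
        ¬ ZRed X].TFAE) := by
  obtain ⟨m0, hm0⟩ := mainZ_all X
  refine ⟨m0, fun m hm he L _ _ t w hF d hd htr => ?_⟩
  have h := hm0 m hm he L t w hF d hd htr
  refine ⟨h, fun hG => ?_⟩
  have h1 : GeneralType ℂ L d ↔ PseudoBrody X.toCov m t w :=
    (general_iff (X := X.toCov) (m := m) (t := t) hG d).symm.trans (h.out 0 2)
  tfae_have 1 ↔ 2 := h1
  tfae_have 2 → 3 := brody_rational
  tfae_have 3 → 2 := fun h2 => (h.out 3 2).mp (rational_gm (X := X.toCov) hG he hF.eqn h2)
  tfae_have 2 ↔ 4 := h.out 2 4
  tfae_finish

end Pool.Agent.Results.MP_2a5ae2_ag.KummerEquivalence
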