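import Mathlib
import Pool.Agent.Y221.VA.Top

/-!
Varieties which are highly ramified over the coordinate hyperplanes of a projective variety `Y`:
entire curves, general type, and the precise exceptional set.
-/

set_option autoImplicit false

namespace Pool.Agent.Results.MP_2a5ae2_ag.VeryAffineSpecialSet

open MvPolynomial Pool.Agent.H159R3.GGL Pool.Agent.TH152.HY Pool.Agent.W602.Cov.R
  Pool.Agent.Y221.VA

/-- Let `Y` be a closed subset of `P^q`. There are `m` and a finite set `B` of nonconstant weights
such that the conclusions `Concl` hold for all quasi-projective varieties `X - D` over `Y` that are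
ramified to order at least `m` over the coordinate hyperplanes. The exceptional set in `Concl` is
the right one: a point of `Y` outside the coordinate hyperplanes lies in it if and only if `Y`
contains its orbit under some one-parameter group, if and only if for every `m'` there is a
nonconstant entire curve through it which comes from a variety ramified to order at least `m'`. It
lies in a proper closed subset if `Y` is irreducible, not in a coordinate hyperplane, and not
preserved by a one-parameter group that acts nontrivially. -/
theorem result {q : ℕ} {ι : Type} (F : ι → MvPolynomial (Fin (q + 1)) ℂ)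
    (hF : ∀ i, ∃ d, (F i).IsHomogeneous d) :
    ∃ (m : ℕ) (B : Finset (Fin (q + 1) → ℤ)), (∀ c ∈ B, ∃ i j, c i ≠ c j) ∧
      (∀ (N : ℕ) (X D : BiSet N q), (∀ u v, X.Mem u v → v ∈ Pts F) →
        RamifiedOff X D (coord q) m → Concl F B X D) ∧
      (∀ x ∈ Pts F, (∀ j, x j ≠ 0) →
        ((∃ c ∈ B, Orb F c x) ↔ ∃ c : Fin (q + 1) → ℤ, (∃ i j, c i ≠ c j) ∧ Orb F c x) ∧
        ((∃ c ∈ B, Orb F c x) ↔ ∀ m', Through F m' x)) ∧
      (Irred F → (∀ j, ∃ x ∈ Pts F, x j ≠ 0) →
        (∀ b : Fin (q + 1) → ℤ, Preserves b F → ActsTrivially b F) →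
        ∃ G : MvPolynomial (Fin (q + 1)) ℂ, (∃ e, G.IsHomogeneous e) ∧ (∃ x ∈ Pts F, eval x G ≠ 0) ∧
          ∀ (L : Type) [Field L] [Algebra ℂ L] (b : Fin (q + 1) → L), Spec F B b →
            aeval b G = 0) :=
  top F hF

end Pool.Agent.Results.MP_2a5ae2_ag.VeryAffineSpecialSet
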